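import Mathlib

/-!
# Random real numbers with independent digits: from finite levels to almost sure statements
-/

set_option autoImplicit false

namespace Pool.Agent.X286.Go

open MeasureTheory ProbabilityTheory Finset Filter Topology

/-- more than half of the positions of any initial segment, a positive proportion of any final
segment, more than three fifths of all (copy of `Pool.Agent.Y885.Rich`) -/
def Rich (δ : ℝ) (D k : ℕ) (J : Finset ℕ) : Prop :=
  (∀ j ∈ J, j < k) ∧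
  (∀ m ≤ k, (1 / 2 + δ) * m ≤ ((J.filter (fun j => j < m)).card : ℝ) + D * Real.log k) ∧
  (∀ m ≤ k, δ * m ≤ ((J.filter (fun j => k - m ≤ j)).card : ℝ) + D * Real.log k) ∧
  (3 / 5 + δ) * k ≤ (J.card : ℝ)

/-- every segment `[k - m, k)` contains more than `(3 / 5 + δ) m - D log k` elements of `J` -/
def Thick (δ : ℝ) (D : ℕ) (J : Set ℕ) : Prop :=
  ∀ k m : ℕ, m ≤ k → (3 / 5 + δ) * m ≤ ({j | j ∈ J ∧ k - m ≤ j ∧ j < k}.ncard : ℝ) + D * Real.log k

open Classical in
/-- the reflected positions -/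
noncomputable def refl (J : Set ℕ) (k : ℕ) : Finset ℕ := (range k).filter fun i => k - 1 - i ∈ J

theorem card_refl (J : Set ℕ) (k : ℕ) (Q : ℕ → Prop) [DecidablePred Q] :
    (((refl J k).filter Q).card : ℕ) = {j | j ∈ J ∧ Q (k - 1 - j) ∧ j < k}.ncard := by
  classical
  have h1 : {j | j ∈ J ∧ Q (k - 1 - j) ∧ j < k} =
      (((range k).filter fun j => j ∈ J ∧ Q (k - 1 - j) : Finset ℕ) : Set ℕ) := by
    ext j
    simp only [Set.mem_ofPred_eq, coe_filter, mem_range]
    tauto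
  rw [h1, Set.ncard_coe_finset]
  apply card_bij' (fun i _ => k - 1 - i) (fun i _ => k - 1 - i)
  · intro i hi
    rw [mem_filter, refl, mem_filter, mem_range] at hi
    rw [mem_filter, mem_range]
    refine ⟨by omega, hi.1.2, ?_⟩
    rw [show k - 1 - (k - 1 - i) = i by omega]
    exact hi.2
  · intro i hi
    rw [mem_filter, mem_range] at hi
    rw [mem_filter, refl, mem_filter, mem_range]
    refine ⟨⟨by omega, ?_⟩, hi.2.2⟩
    rw [show k - 1 - (k - 1 - i) = i by omega]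
    exact hi.2.1
  · intro i hi
    rw [mem_filter, refl, mem_filter, mem_range] at hi
    omega
  · intro i hi
    rw [mem_filter, mem_range] at hi
    omega

theorem rich_refl {δ : ℝ} (hδ : 0 < δ) {D : ℕ} {J : Set ℕ} (hT : Thick δ D J) :
    ∃ k₀ : ℕ, ∀ k : ℕ, k₀ ≤ k → Rich (δ / 2) D k (refl J k) := by
  classical
  have hlog : Tendsto (fun k : ℕ => Real.log k / k) atTop (𝓝 0) := by
    have h := Real.isLittleO_log_id_atTop.tendsto_div_nhds_zero
    exact h.comp tendsto_natCast_atTop_atTop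
  have hev : ∀ᶠ k : ℕ in atTop, D * (Real.log k / k) < δ / 2 := by
    have h2 := hlog.const_mul (D : ℝ)
    rw [mul_zero] at h2
    exact h2.eventually_lt_const (by linarith)
  obtain ⟨k₁, hk₁⟩ := eventually_atTop.1 hev
  refine ⟨k₁ + 1, fun k hk => ⟨?_, ?_, ?_, ?_⟩⟩
  · intro j hj
    rw [refl, mem_filter, mem_range] at hj
    exact hj.1
  · intro m hm
    rw [card_refl]
    have h1 := hT k m hm
    have h2 : {j | j ∈ J ∧ (fun i => i < m) (k - 1 - j) ∧ j < k} =
        {j | j ∈ J ∧ k - m ≤ j ∧ j < k} := by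
      ext j
      simp only [Set.mem_ofPred_eq]
      constructor
      · rintro ⟨a, b, c⟩
        exact ⟨a, by omega, c⟩
      · rintro ⟨a, b, c⟩
        exact ⟨a, by omega, c⟩
    rw [h2]
    have hm0 : (0 : ℝ) ≤ m := Nat.cast_nonneg m
    nlinarith
  · intro m hm
    rw [card_refl]
    have h1 := hT m m le_rfl
    have h2 : {j | j ∈ J ∧ (fun i => k - m ≤ i) (k - 1 - j) ∧ j < k} =
        {j | j ∈ J ∧ m - m ≤ j ∧ j < m} := by
      ext j
      simp only [Set.mem_ofPred_eq]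
      constructor
      · rintro ⟨a, b, c⟩
        exact ⟨a, by omega, by omega⟩
      · rintro ⟨a, b, c⟩
        exact ⟨a, by omega, by omega⟩
    rw [h2]
    have hm0 : (0 : ℝ) ≤ m := Nat.cast_nonneg m
    have hl : Real.log m ≤ Real.log k := by
      rcases Nat.eq_zero_or_pos m with h | h
      · rw [h]
        simp only [Nat.cast_zero, Real.log_zero]
        exact Real.log_natCast_nonneg k
      · exact Real.log_le_log (by exact_mod_cast h) (by exact_mod_cast hm)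
    have hD : (D : ℝ) * Real.log m ≤ D * Real.log k :=
      mul_le_mul_of_nonneg_left hl (Nat.cast_nonneg D)
    nlinarith
  · have h1 := hT k k le_rfl
    have h2 : (((refl J k).card : ℕ) : ℝ) = ({j | j ∈ J ∧ k - k ≤ j ∧ j < k}.ncard : ℝ) := by
      have h3 := card_refl J k (fun _ => True)
      have h4 : (refl J k).filter (fun _ => True) = refl J k := by simp
      rw [h4] at h3
      rw [h3]
      congr 2
      ext j
      simp only [Set.mem_ofPred_eq]
      constructor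
      · rintro ⟨a, b, c⟩
        exact ⟨a, by omega, c⟩
      · rintro ⟨a, b, c⟩
        exact ⟨a, trivial, c⟩
    rw [h2]
    have hk0 : (0 : ℝ) < k := by exact_mod_cast (by omega : 0 < k)
    have h4 := hk₁ k (by omega)
    have h5 : (D : ℝ) * Real.log k ≤ δ / 2 * k := by
      have h6 : D * (Real.log k / k) = D * Real.log k / k := by ring
      rw [h6, div_lt_iff₀ hk0] at h4
      exact h4.le
    linarith

section prob

variable {Ω : Type} [MeasurableSpace Ω] (μ : Measure Ω) [IsProbabilityMeasure μ]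

/-- the digit at the scale `b ^ j` of the integer with the digits `X 0, ..., X (k - 1)` -/
def term (X : ℕ → Ω → ℤ) (b k j : ℕ) (ω : Ω) : ℤ := X (k - 1 - j) ω * (b : ℤ) ^ j

/-- the possible values -/
noncomputable def vals (B b j : ℕ) : Finset ℤ := (Icc (-(B : ℤ)) B).image fun a => a * (b : ℤ) ^ j

/-- the weights -/
noncomputable def wt (X : ℕ → Ω → ℤ) (b k j : ℕ) (x : ℤ) : ℝ := μ.real {ω | term X b k j ω = x}

variable {μ}

omit [MeasurableSpace Ω] in
theorem term_mem {X : ℕ → Ω → ℤ} {B : ℕ} (hB : ∀ j ω, |X j ω| ≤ B) (b k j : ℕ) (ω : Ω) :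
    term X b k j ω ∈ vals B b j := by
  unfold term vals
  rw [mem_image]
  refine ⟨_, ?_, rfl⟩
  rw [mem_Icc]
  exact abs_le.1 (hB _ ω)

theorem meas_term {X : ℕ → Ω → ℤ} (hX : ∀ j, Measurable (X j)) (b k j : ℕ) :
    Measurable (term X b k j) := (hX _).mul_const _

theorem meas_set {X : ℕ → Ω → ℤ} (hX : ∀ j, Measurable (X j)) (b k j : ℕ) (x : ℤ) :
    MeasurableSet {ω | term X b k j ω = x} := meas_term hX b k j (measurableSet_singleton x)

omit [IsProbabilityMeasure μ] in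
theorem prob_point {X : ℕ → Ω → ℤ} (hI : iIndepFun X μ) (b k : ℕ)
    (x : Fin k → ℤ) : μ.real {ω | ∀ j : Fin k, term X b k j ω = x j} =
      ∏ j : Fin k, wt μ X b k j (x j) := by
  have hg : Function.Injective (fun j : Fin k => k - 1 - (j : ℕ)) := by
    intro i j h
    simp only at h
    exact Fin.ext (by omega)
  have h1 : iIndepFun (fun j : Fin k => X (k - 1 - (j : ℕ))) μ := hI.precomp hg
  have h2 : iIndepFun (fun j : Fin k => term X b k j) μ :=
    h1.comp (fun j : Fin k => fun a : ℤ => a * (b : ℤ) ^ (j : ℕ))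
      (fun j => measurable_id.mul_const _)
  have h3 := h2.measure_inter_preimage_eq_mul Finset.univ (sets := fun j : Fin k => {x j})
    (fun j _ => measurableSet_singleton _)
  have h4 : {ω | ∀ j : Fin k, term X b k j ω = x j} =
      ⋂ j ∈ (Finset.univ : Finset (Fin k)), (term X b k j) ⁻¹' {x j} := by
    ext ω
    simp
  rw [h4]
  unfold Measure.real
  rw [h3, ENNReal.toReal_prod]
  rfl

open Classical in
theorem prob_event {X : ℕ → Ω → ℤ} (hX : ∀ j, Measurable (X j)) (hI : iIndepFun X μ) {B : ℕ}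
    (hB : ∀ j ω, |X j ω| ≤ B) (b k : ℕ) (E : (Fin k → ℤ) → Prop) :
    μ.real {ω | E (fun j : Fin k => term X b k j ω)} =
      ∑ x ∈ Fintype.piFinset (fun j : Fin k => vals B b j),
        if E x then ∏ j : Fin k, wt μ X b k j (x j) else 0 := by
  rw [← sum_filter]
  have h1 : {ω | E (fun j : Fin k => term X b k j ω)} =
      ⋃ x ∈ ((Fintype.piFinset (fun j : Fin k => vals B b j)).filter E),
        {ω | ∀ j : Fin k, term X b k j ω = x j} := by
    ext ω
    simp only [Set.mem_ofPred_eq, Set.mem_iUnion, mem_filter, Fintype.mem_piFinset, exists_prop]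
    constructor
    · intro h
      exact ⟨fun j : Fin k => term X b k j ω, ⟨fun j => term_mem hB b k j ω, h⟩, fun _ => rfl⟩
    · rintro ⟨x, ⟨-, hx⟩, h2⟩
      have h3 : (fun j : Fin k => term X b k j ω) = x := funext h2
      rw [h3]
      exact hx
  rw [h1, measureReal_biUnion_finset]
  · exact sum_congr rfl fun x _ => prob_point hI b k x
  · intro x _ y _ hxy
    rw [Function.onFun, Set.disjoint_left]
    intro ω h2 h3
    apply hxy
    funext j
    rw [← h2 j, ← h3 j]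
  · intro x _
    have h4 : {ω | ∀ j : Fin k, term X b k j ω = x j} =
        ⋂ j : Fin k, {ω | term X b k j ω = x j} := by
      ext ω
      simp
    rw [h4]
    exact MeasurableSet.iInter fun j => meas_set hX b k j _

omit [IsProbabilityMeasure μ] in
theorem wt_nonneg (X : ℕ → Ω → ℤ) (b k j : ℕ) (x : ℤ) : 0 ≤ wt μ X b k j x := measureReal_nonneg

theorem wt_sum {X : ℕ → Ω → ℤ} (hX : ∀ j, Measurable (X j)) {B : ℕ}
    (hB : ∀ j ω, |X j ω| ≤ B) (b k j : ℕ) : ∑ x ∈ vals B b j, wt μ X b k j x = 1 := by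
  unfold wt
  rw [← measureReal_biUnion_finset]
  · have h : (⋃ x ∈ vals B b j, {ω | term X b k j ω = x}) = Set.univ := by
      apply Set.eq_univ_of_forall
      intro ω
      simp only [Set.mem_iUnion, Set.mem_ofPred_eq, exists_prop, exists_eq_right']
      exact term_mem hB b k j ω
    rw [h, probReal_univ]
  · intro x _ y _ hxy
    rw [Function.onFun, Set.disjoint_left]
    intro ω h2 h3
    exact hxy (h2.symm.trans h3)
  · intro x _
    exact meas_set hX b k j x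

omit [IsProbabilityMeasure μ] in
theorem wt_le {X : ℕ → Ω → ℤ} {η : ℝ} {J : Set ℕ}
    (hJ : ∀ j ∈ J, ∀ x : ℤ, μ.real {ω | X j ω = x} ≤ 1 - η) {B b : ℕ} (hb : 1 ≤ b) (hB : 2 ≤ B)
    {k j : ℕ} (hj : k - 1 - j ∈ J) (y : ℤ) :
    ∑ x ∈ (vals B b j).filter (fun x => y ≤ x ∧ (B : ℤ) * (x - y) ≤ (b : ℤ) ^ j), wt μ X b k j x ≤
      1 - η := by
  have hbj : (0 : ℤ) < (b : ℤ) ^ j := by positivity
  have hcard : ((vals B b j).filter
      (fun x => y ≤ x ∧ (B : ℤ) * (x - y) ≤ (b : ℤ) ^ j)).card ≤ 1 := by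
    rw [card_le_one]
    intro x hx z hz
    rw [mem_filter, vals, mem_image] at hx hz
    obtain ⟨⟨a, -, rfl⟩, h1, h2⟩ := hx
    obtain ⟨⟨c, -, rfl⟩, h3, h4⟩ := hz
    have hB' : (2 : ℤ) ≤ B := by exact_mod_cast hB
    have key : ∀ a c : ℤ, y ≤ a * (b : ℤ) ^ j → (B : ℤ) * (c * (b : ℤ) ^ j - y) ≤ (b : ℤ) ^ j →
        c ≤ a := by
      intro a c h5 h6
      by_contra hcon
      push Not at hcon
      have h7 : a * (b : ℤ) ^ j + (b : ℤ) ^ j ≤ c * (b : ℤ) ^ j := by nlinarith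
      nlinarith
    have : a = c := le_antisymm (key c a h3 h2) (key a c h1 h4)
    rw [this]
  rcases Nat.lt_or_ge 0 ((vals B b j).filter
      (fun x => y ≤ x ∧ (B : ℤ) * (x - y) ≤ (b : ℤ) ^ j)).card with h | h
  · have h1 : ((vals B b j).filter
      (fun x => y ≤ x ∧ (B : ℤ) * (x - y) ≤ (b : ℤ) ^ j)).card = 1 := by omega
    obtain ⟨x, hx⟩ := card_eq_one.1 h1
    have hxm : x ∈ (vals B b j).filter (fun x => y ≤ x ∧ (B : ℤ) * (x - y) ≤ (b : ℤ) ^ j) := by
      rw [hx]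
      exact mem_singleton_self x
    rw [hx, sum_singleton]
    rw [mem_filter, vals, mem_image] at hxm
    obtain ⟨⟨a, -, rfl⟩, -, -⟩ := hxm
    unfold wt term
    have h2 : {ω | X (k - 1 - j) ω * (b : ℤ) ^ j = a * (b : ℤ) ^ j} =
        {ω | X (k - 1 - j) ω = a} := by
      ext ω
      simp only [Set.mem_ofPred_eq]
      exact ⟨fun h => mul_right_cancel₀ hbj.ne' h, fun h => by rw [h]⟩
    rw [h2]
    exact hJ _ hj a
  · have h1 := card_eq_zero.1 (Nat.le_zero.1 h)
    rw [h1, sum_empty]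
    exact measureReal_nonneg.trans (hJ _ hj 0)

omit [MeasurableSpace Ω] in
theorem sum_term (X : ℕ → Ω → ℤ) (b k : ℕ) (ω : Ω) :
    ∑ j : Fin k, term X b k j ω = ∑ i ∈ range k, X i ω * (b : ℤ) ^ (k - 1 - i) := by
  rw [Fin.sum_univ_eq_sum_range (fun j => term X b k j ω) k,
    ← sum_range_reflect (fun i => X i ω * (b : ℤ) ^ (k - 1 - i)) k]
  apply sum_congr rfl
  intro j hj
  rw [mem_range] at hj
  unfold term
  rw [show k - 1 - (k - 1 - j) = j by omega]

open Classical in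
/-- the finite statement about the property `P`, with failure probability `1 / k ^ U` -/
def Level (b B D : ℕ) (η δ : ℝ) (P : ℕ → ℤ → Prop) : Prop :=
  ∀ U : ℕ, ∃ k₀ : ℕ, ∀ k : ℕ, k₀ ≤ k → ∀ J : Finset ℕ, Rich δ D k J →
    ∀ (s : ℕ → Finset ℤ) (p : ℕ → ℤ → ℝ),
      (∀ j < k, (∀ x ∈ s j, 0 ≤ p j x ∧ |x| ≤ (B : ℤ) * (b : ℤ) ^ j) ∧ ∑ x ∈ s j, p j x = 1) →
      (∀ j ∈ J, ∀ y : ℤ, ∑ x ∈ (s j).filter (fun x => y ≤ x ∧ (B : ℤ) * (x - y) ≤ (b : ℤ) ^ j),
        p j x ≤ 1 - η) →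
      ∀ c : ℤ, |c| ≤ (B : ℤ) * (b : ℤ) ^ k →
      ∑ ω ∈ Fintype.piFinset (fun j : Fin k => s j), (if ¬ P k (c + ∑ j : Fin k, ω j) then
          ∏ j : Fin k, p j (ω j) else 0) ≤ 1 / (k : ℝ) ^ U

/-- **From finite levels to almost all prefixes.** -/
theorem prefixes {b B D : ℕ} (hb : 2 ≤ b) (hB : 2 ≤ B) {η δ : ℝ} (hδ : 0 < δ) {J : Set ℕ}
    (hT : Thick δ D J) {P : ℕ → ℤ → Prop} (hP : Level b B D η (δ / 2) P) {X : ℕ → Ω → ℤ}
    (hX : ∀ j, Measurable (X j)) (hI : iIndepFun X μ) (hXB : ∀ j ω, |X j ω| ≤ B)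
    (hJ : ∀ j ∈ J, ∀ x : ℤ, μ.real {ω | X j ω = x} ≤ 1 - η) (U : ℕ) :
    ∀ᵐ ω ∂μ, ∃ k₀ : ℕ, ∀ k : ℕ, k₀ ≤ k → ∀ m : ℤ,
      |m - ∑ i ∈ range k, X i ω * (b : ℤ) ^ (k - 1 - i)| ≤ (k : ℤ) ^ U → P k m := by
  classical
  obtain ⟨k₁, h1⟩ := hP (U + 2)
  obtain ⟨k₂, h2⟩ := rich_refl hδ hT
  have hpow : ∃ k₃ : ℕ, ∀ k : ℕ, k₃ ≤ k → (k : ℤ) ^ U ≤ (B : ℤ) * (b : ℤ) ^ k := by
    have h3 : Tendsto (fun n : ℕ => (n : ℝ) ^ U / (2 : ℝ) ^ n) atTop (𝓝 0) :=
      tendsto_pow_const_div_const_pow_of_one_lt U (by norm_num)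
    obtain ⟨k₃, h4⟩ := eventually_atTop.1 (h3.eventually_lt_const one_pos)
    refine ⟨k₃, fun k hk => ?_⟩
    have h5 := h4 k hk
    rw [div_lt_one (by positivity)] at h5
    have h6 : (k : ℤ) ^ U < (2 : ℤ) ^ k := by exact_mod_cast h5
    have h7 : (2 : ℤ) ^ k ≤ (b : ℤ) ^ k := by
      apply pow_le_pow_left₀ (by norm_num)
      exact_mod_cast hb
    have h8 : (b : ℤ) ^ k ≤ (B : ℤ) * (b : ℤ) ^ k :=
      le_mul_of_one_le_left (by positivity) (by exact_mod_cast (by omega : 1 ≤ B))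
    linarith
  obtain ⟨k₃, h3⟩ := hpow
  obtain ⟨K, hK⟩ : ∃ K, K = k₁ + k₂ + k₃ + 1 := ⟨_, rfl⟩
  obtain ⟨bad, hbad⟩ : ∃ bad : ℕ → Set Ω, bad = fun k => {ω | ∃ m : ℤ,
    |m - ∑ i ∈ range k, X i ω * (b : ℤ) ^ (k - 1 - i)| ≤ (k : ℤ) ^ U ∧ ¬ P k m} := ⟨_, rfl⟩
  have hmeas : ∀ k : ℕ, K ≤ k → μ (bad k) ≤ ENNReal.ofReal (3 / (k : ℝ) ^ 2) := by
    intro k hk
    have hk1 : k₁ ≤ k := by omega
    have hk2 : k₂ ≤ k := by omega
    have hk3 : k₃ ≤ k := by omega
    have hk0 : (1 : ℝ) ≤ k := by exact_mod_cast (by omega : 1 ≤ k)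
    have hsub : bad k ⊆ ⋃ c ∈ Icc (-((k : ℤ) ^ U)) ((k : ℤ) ^ U),
        {ω | ¬ P k (c + ∑ j : Fin k, term X b k j ω)} := by
      intro ω hω
      rw [hbad] at hω
      obtain ⟨m, hm1, hm4⟩ := hω
      rw [← sum_term] at hm1
      simp only [Set.mem_iUnion, exists_prop]
      refine ⟨m - ∑ j : Fin k, term X b k j ω, mem_Icc.2 (abs_le.1 hm1), ?_⟩
      simp only [Set.mem_ofPred_eq, sub_add_cancel]
      exact hm4
    have hone : ∀ c ∈ Icc (-((k : ℤ) ^ U)) ((k : ℤ) ^ U),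
        μ.real {ω | ¬ P k (c + ∑ j : Fin k, term X b k j ω)} ≤ 1 / (k : ℝ) ^ (U + 2) := by
      intro c hc
      have h4 := prob_event hX hI hXB b k
        (fun x : Fin k → ℤ => ¬ P k (c + ∑ j : Fin k, x j))
      rw [h4]
      have h5 := h1 k hk1 (refl J k) (h2 k hk2) (fun j => vals B b j) (fun j => wt μ X b k j)
        (fun j _ => ⟨fun x hx => ⟨wt_nonneg X b k j x, by
          rw [vals, mem_image] at hx
          obtain ⟨a, ha, rfl⟩ := hx
          rw [abs_mul, abs_of_nonneg (by positivity : (0 : ℤ) ≤ (b : ℤ) ^ j)]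
          exact mul_le_mul_of_nonneg_right (abs_le.2 (mem_Icc.1 ha)) (by positivity)⟩,
          wt_sum hX hXB b k j⟩)
        (fun j hj y => by
          rw [refl, mem_filter] at hj
          exact wt_le hJ (by omega) hB hj.2 y) c ((abs_le.2 (mem_Icc.1 hc)).trans (h3 k hk3))
      refine le_trans (le_of_eq ?_) h5
      apply sum_congr rfl
      intro x _
      split_ifs <;> rfl
    have hreal : μ.real (bad k) ≤ 3 / (k : ℝ) ^ 2 := by
      calc μ.real (bad k) ≤ μ.real (⋃ c ∈ Icc (-((k : ℤ) ^ U)) ((k : ℤ) ^ U),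
            {ω | ¬ P k (c + ∑ j : Fin k, term X b k j ω)}) :=
            measureReal_mono hsub (measure_ne_top _ _)
        _ ≤ ∑ c ∈ Icc (-((k : ℤ) ^ U)) ((k : ℤ) ^ U), μ.real
            {ω | ¬ P k (c + ∑ j : Fin k, term X b k j ω)} := measureReal_biUnion_finset_le _ _
        _ ≤ ∑ _c ∈ Icc (-((k : ℤ) ^ U)) ((k : ℤ) ^ U), 1 / (k : ℝ) ^ (U + 2) :=
            sum_le_sum hone
        _ = (2 * (k : ℝ) ^ U + 1) * (1 / (k : ℝ) ^ (U + 2)) := by
            rw [sum_const, nsmul_eq_mul]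
            congr 1
            rw [Int.card_Icc]
            have h5 : ((k : ℤ) ^ U + 1 - -((k : ℤ) ^ U)).toNat = 2 * k ^ U + 1 := by
              have : (k : ℤ) ^ U + 1 - -((k : ℤ) ^ U) = ((2 * k ^ U + 1 : ℕ) : ℤ) := by
                push_cast
                ring
              rw [this, Int.toNat_natCast]
            rw [h5]
            push_cast
            ring
        _ ≤ (3 * (k : ℝ) ^ U) * (1 / (k : ℝ) ^ (U + 2)) := by
            apply mul_le_mul_of_nonneg_right _ (by positivity)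
            have : (1 : ℝ) ≤ (k : ℝ) ^ U := one_le_pow₀ hk0
            linarith
        _ = 3 / (k : ℝ) ^ 2 := by
            rw [pow_add]
            field_simp
    rw [← ofReal_measureReal]
    exact ENNReal.ofReal_le_ofReal hreal
  have hsum : ∑' n : ℕ, μ (bad (n + K)) ≠ ⊤ := by
    have hK1 : 1 ≤ K := by omega
    have hs : Summable (fun n : ℕ => 3 / ((n + K : ℕ) : ℝ) ^ 2) := by
      have h4 : Summable (fun n : ℕ => 3 * (1 / (n : ℝ) ^ 2)) :=
        (Real.summable_one_div_nat_pow.2 (by norm_num)).mul_left 3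
      have h5 := (summable_nat_add_iff K).2 h4
      refine h5.congr fun n => ?_
      ring
    have hle : ∑' n : ℕ, μ (bad (n + K)) ≤
        ∑' n : ℕ, ENNReal.ofReal (3 / ((n + K : ℕ) : ℝ) ^ 2) :=
      ENNReal.tsum_le_tsum fun n => hmeas (n + K) (by omega)
    refine ne_top_of_le_ne_top ?_ hle
    rw [← ENNReal.ofReal_tsum_of_nonneg (fun n => by positivity) hs]
    exact ENNReal.ofReal_ne_top
  filter_upwards [ae_eventually_notMem hsum] with ω hω
  obtain ⟨n₀, hn⟩ := eventually_atTop.1 hω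
  refine ⟨n₀ + K, fun k hk m hm1 => ?_⟩
  by_contra hcon
  have h4 := hn (k - K) (by omega)
  rw [show k - K + K = k by omega] at h4
  apply h4
  rw [hbad]
  exact ⟨m, hm1, hcon⟩

end prob

end Pool.Agent.X286.Go
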