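import Mathlib
import Pool.Agent.X286.Go.As

/-!
# Integers near the multiples of powers by a random real number, and by almost every real number
-/

set_option autoImplicit false

namespace Pool.Agent.X286.Go

open MeasureTheory ProbabilityTheory Finset Filter Topology

/-- the real number with the digits `x 0, x 1, ...` after the point in base `b` -/
noncomputable def num (b : ℕ) (x : ℕ → ℤ) : ℝ := ∑' j : ℕ, (x j : ℝ) / (b : ℝ) ^ (j + 1)

theorem num_near {b B : ℕ} (hb : 2 ≤ b) {x : ℕ → ℤ} (hx : ∀ j, |x j| ≤ B) (k : ℕ) :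
    |num b x * (b : ℝ) ^ k - ((∑ i ∈ range k, x i * (b : ℤ) ^ (k - 1 - i) : ℤ) : ℝ)| ≤ B := by
  have hb' : (2 : ℝ) ≤ b := by exact_mod_cast hb
  have hb0 : (0 : ℝ) < b := by linarith
  obtain ⟨r, hr⟩ : ∃ r : ℝ, r = (b : ℝ)⁻¹ := ⟨_, rfl⟩
  have hr0 : 0 < r := by rw [hr]; positivity
  have hr1 : r ≤ 1 / 2 := by
    rw [hr, one_div]
    exact inv_anti₀ (by norm_num) hb'
  have hf : ∀ j : ℕ, (x j : ℝ) / (b : ℝ) ^ (j + 1) = x j * r ^ (j + 1) := by
    intro j
    rw [hr, inv_pow]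
    rfl
  have hbd : ∀ j : ℕ, ‖(x j : ℝ) * r ^ (j + 1)‖ ≤ B * r ^ (j + 1) := by
    intro j
    rw [norm_mul, Real.norm_eq_abs, Real.norm_of_nonneg (by positivity)]
    apply mul_le_mul_of_nonneg_right _ (by positivity)
    exact_mod_cast hx j
  have hgs : Summable (fun j : ℕ => r ^ j) :=
    summable_geometric_of_lt_one hr0.le (by linarith)
  have hg : Summable (fun j : ℕ => (B : ℝ) * r ^ (j + 1)) := by
    have h := (hgs.mul_left ((B : ℝ) * r))
    refine h.congr fun j => ?_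
    rw [pow_succ]
    ring
  have hs : Summable (fun j : ℕ => (x j : ℝ) * r ^ (j + 1)) := Summable.of_norm_bounded hg hbd
  have h1 : num b x = ∑ i ∈ range k, (x i : ℝ) * r ^ (i + 1) +
      ∑' j : ℕ, (x (j + k) : ℝ) * r ^ (j + k + 1) := by
    unfold num
    simp only [hf]
    exact (hs.sum_add_tsum_nat_add k).symm
  have hrb : r * b = 1 := by rw [hr]; exact inv_mul_cancel₀ hb0.ne'
  have h2 : (∑ i ∈ range k, (x i : ℝ) * r ^ (i + 1)) * (b : ℝ) ^ k =
      ((∑ i ∈ range k, x i * (b : ℤ) ^ (k - 1 - i) : ℤ) : ℝ) := by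
    push_cast
    rw [sum_mul]
    apply sum_congr rfl
    intro i hi
    rw [mem_range] at hi
    have h3 : (b : ℝ) ^ k = b ^ (i + 1) * b ^ (k - 1 - i) := by
      rw [← pow_add]
      congr 1
      omega
    rw [h3, show (x i : ℝ) * r ^ (i + 1) * (b ^ (i + 1) * b ^ (k - 1 - i)) =
      x i * ((r * b) ^ (i + 1)) * b ^ (k - 1 - i) by rw [mul_pow]; ring, hrb, one_pow, mul_one]
  have h3 : |∑' j : ℕ, (x (j + k) : ℝ) * r ^ (j + k + 1)| ≤ B * r ^ k := by
    have hgk : Summable (fun j : ℕ => (B : ℝ) * r ^ (j + k + 1)) :=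
      (summable_nat_add_iff (f := fun j : ℕ => (B : ℝ) * r ^ (j + 1)) k).2 hg
    have h4 := tsum_of_norm_bounded hgk.hasSum (fun j => hbd (j + k))
    rw [Real.norm_eq_abs] at h4
    refine h4.trans ?_
    have h5 : ∑' j : ℕ, (B : ℝ) * r ^ (j + k + 1) = B * r ^ k * (r * (1 - r)⁻¹) := by
      have h6 : ∀ j : ℕ, (B : ℝ) * r ^ (j + k + 1) = B * r ^ k * r * r ^ j := by
        intro j
        rw [pow_add, pow_add]
        ring
      simp only [h6]
      rw [tsum_mul_left, tsum_geometric_of_lt_one hr0.le (by linarith)]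
      ring
    rw [h5]
    apply mul_le_of_le_one_right (by positivity)
    rw [← div_eq_mul_inv, div_le_one (by linarith)]
    linarith
  rw [h1, add_mul, h2, add_sub_cancel_left, abs_mul, abs_of_nonneg (by positivity : (0 : ℝ) ≤ b ^ k)]
  calc |∑' j : ℕ, (x (j + k) : ℝ) * r ^ (j + k + 1)| * (b : ℝ) ^ k ≤ B * r ^ k * b ^ k :=
        mul_le_mul_of_nonneg_right h3 (by positivity)
    _ = B * (r * b) ^ k := by rw [mul_pow]; ring
    _ = B := by rw [hrb, one_pow, mul_one]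

/-- **Integers near `α b ^ k` for a random real number `α` with independent digits.** -/
theorem reals {Ω : Type} [MeasurableSpace Ω] {μ : Measure Ω} [IsProbabilityMeasure μ]
    {b B D : ℕ} (hb : 2 ≤ b) (hB : 2 ≤ B) {η δ : ℝ} (hδ : 0 < δ) {J : Set ℕ}
    (hT : Thick δ D J) {P : ℕ → ℤ → Prop} (hP : Level b B D η (δ / 2) P) {X : ℕ → Ω → ℤ}
    (hX : ∀ j, Measurable (X j)) (hI : iIndepFun X μ) (hXB : ∀ j ω, |X j ω| ≤ B)
    (hJ : ∀ j ∈ J, ∀ x : ℤ, μ.real {ω | X j ω = x} ≤ 1 - η) (U : ℕ) :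
    ∀ᵐ ω ∂μ, ∃ k₀ : ℕ, ∀ k : ℕ, k₀ ≤ k → ∀ m : ℤ,
      |(m : ℝ) - num b (fun j => X j ω) * (b : ℝ) ^ k| ≤ (k : ℝ) ^ U → P k m := by
  filter_upwards [prefixes hb hB hδ hT hP hX hI hXB hJ (U + 1)] with ω hω
  obtain ⟨k₀, hk₀⟩ := hω
  refine ⟨k₀ + B + 1, fun k hk m hm => ?_⟩
  have h1 := num_near hb (x := fun j => X j ω) (fun j => hXB j ω) k
  have hk1 : (B : ℝ) + 1 ≤ k := by exact_mod_cast (by omega : B + 1 ≤ k)
  have hkU : (1 : ℝ) ≤ (k : ℝ) ^ U := one_le_pow₀ (by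
    have : (0 : ℝ) ≤ B := Nat.cast_nonneg B
    linarith)
  have h2 : |(m : ℝ) - ((∑ i ∈ range k, X i ω * (b : ℤ) ^ (k - 1 - i) : ℤ) : ℝ)| ≤
      (k : ℝ) ^ (U + 1) := by
    have h3 : |(m : ℝ) - ((∑ i ∈ range k, X i ω * (b : ℤ) ^ (k - 1 - i) : ℤ) : ℝ)| ≤
        |(m : ℝ) - num b (fun j => X j ω) * (b : ℝ) ^ k| +
        |num b (fun j => X j ω) * (b : ℝ) ^ k -
          ((∑ i ∈ range k, X i ω * (b : ℤ) ^ (k - 1 - i) : ℤ) : ℝ)| := abs_sub_le _ _ _
    have h4 : (k : ℝ) ^ U + B ≤ (k : ℝ) ^ (U + 1) := by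
      have hB0 : (0 : ℝ) ≤ B := Nat.cast_nonneg B
      calc (k : ℝ) ^ U + B ≤ (k : ℝ) ^ U + B * (k : ℝ) ^ U := by nlinarith
        _ = (k : ℝ) ^ U * (B + 1) := by ring
        _ ≤ (k : ℝ) ^ U * k := mul_le_mul_of_nonneg_left hk1 (by positivity)
        _ = (k : ℝ) ^ (U + 1) := (pow_succ _ _).symm
    linarith
  exact hk₀ k (by omega) m (by exact_mod_cast h2)

/-- the exceptions are rare -/
def Rare (P : ℕ → Prop) : Prop := ∀ U : ℕ, ∃ k₀ : ℕ, ∀ k : ℕ, k₀ ≤ k →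
  ({m : ℕ | m < 2 ^ k ∧ 0 < m ∧ ¬ P m}.ncard : ℝ) ≤ 2 ^ k / (k : ℝ) ^ U

theorem rare_count {P : ℕ → Prop} (hP : Rare P) (U : ℕ) : ∃ x₀ : ℝ, ∀ M : ℝ, x₀ ≤ M →
    {m : ℕ | (m : ℝ) ≤ M ∧ 0 < m ∧ ¬ P m}.Finite ∧
    ({m : ℕ | (m : ℝ) ≤ M ∧ 0 < m ∧ ¬ P m}.ncard : ℝ) ≤ 2 * M / Real.log M ^ U := by
  classical
  obtain ⟨k₀, hk₀⟩ := hP U
  refine ⟨max (2 ^ k₀) 2, fun M hM => ?_⟩
  have hM1 : (2 : ℝ) ^ k₀ ≤ M := (le_max_left _ _).trans hM
  have hM2 : 2 ≤ M := (le_max_right _ _).trans hM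
  have hM0 : 0 < M := by linarith
  obtain ⟨k, hk⟩ : ∃ k, k = Nat.log 2 ⌊M⌋₊ + 1 := ⟨_, rfl⟩
  have hfl : ⌊M⌋₊ ≠ 0 := by
    have : 2 ≤ ⌊M⌋₊ := Nat.le_floor (by exact_mod_cast hM2)
    omega
  have h1 : M < 2 ^ k := by
    have h2 : ⌊M⌋₊ < 2 ^ k := by rw [hk]; exact Nat.lt_pow_succ_log_self (by norm_num) _
    have h3 : M < (⌊M⌋₊ : ℝ) + 1 := Nat.lt_floor_add_one M
    have h4 : (⌊M⌋₊ : ℝ) + 1 ≤ 2 ^ k := by exact_mod_cast h2
    linarith
  have h2 : (2 : ℝ) ^ k ≤ 2 * M := by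
    have h3 : 2 ^ Nat.log 2 ⌊M⌋₊ ≤ ⌊M⌋₊ := Nat.pow_log_le_self 2 hfl
    have h4 : (2 : ℝ) ^ Nat.log 2 ⌊M⌋₊ ≤ M := by
      have h5 : ((2 ^ Nat.log 2 ⌊M⌋₊ : ℕ) : ℝ) ≤ (⌊M⌋₊ : ℝ) := by exact_mod_cast h3
      push_cast at h5
      exact h5.trans (Nat.floor_le hM0.le)
    rw [hk, pow_succ]
    linarith
  have hkk : k₀ ≤ k := by
    by_contra hcon
    push Not at hcon
    have h3 : (2 : ℝ) ^ k ≤ 2 ^ k₀ := pow_le_pow_right₀ (by norm_num) hcon.le
    linarith
  have hk1 : 1 ≤ k := by omega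
  have hlog : Real.log M ≤ k := by
    have h3 : Real.log M ≤ Real.log (2 ^ k) := Real.log_le_log hM0 h1.le
    rw [Real.log_pow] at h3
    have h4 : Real.log 2 ≤ 1 := by linarith [Real.log_two_lt_d9]
    have h5 : (k : ℝ) * Real.log 2 ≤ k := mul_le_of_le_one_right (Nat.cast_nonneg k) h4
    linarith
  have hlog0 : 0 < Real.log M := Real.log_pos (by linarith)
  have hsub : {m : ℕ | (m : ℝ) ≤ M ∧ 0 < m ∧ ¬ P m} ⊆ {m : ℕ | m < 2 ^ k ∧ 0 < m ∧ ¬ P m} := by
    rintro m ⟨h3, h4⟩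
    refine ⟨?_, h4⟩
    have h5 : (m : ℝ) < 2 ^ k := lt_of_le_of_lt h3 h1
    exact_mod_cast h5
  have hfin : {m : ℕ | m < 2 ^ k ∧ 0 < m ∧ ¬ P m}.Finite :=
    (Set.finite_lt_nat (2 ^ k)).subset fun m hm => hm.1
  refine ⟨hfin.subset hsub, ?_⟩
  calc (({m : ℕ | (m : ℝ) ≤ M ∧ 0 < m ∧ ¬ P m}.ncard : ℕ) : ℝ) ≤
        ({m : ℕ | m < 2 ^ k ∧ 0 < m ∧ ¬ P m}.ncard : ℝ) := by
        exact_mod_cast Set.ncard_le_ncard hsub hfin
    _ ≤ 2 ^ k / (k : ℝ) ^ U := hk₀ k hkk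
    _ ≤ 2 * M / (k : ℝ) ^ U := div_le_div_of_nonneg_right h2 (by positivity)
    _ ≤ 2 * M / Real.log M ^ U := by
        apply div_le_div_of_nonneg_left (by positivity) (by positivity)
        exact pow_le_pow_left₀ hlog0.le hlog U

/-- **Integers near `α v k` for almost every real number `α`.** -/
theorem lebesgue {P : ℕ → Prop} (hP : Rare P) {v : ℕ → ℝ} (hv : ∀ k, 2 ≤ v k) {A : ℕ}
    (hA : Summable fun k : ℕ => 1 / Real.log (v k) ^ A) (U : ℕ) :
    ∀ᵐ α : ℝ, 0 < α → ∃ k₀ : ℕ, ∀ k : ℕ, k₀ ≤ k → ∀ m : ℕ, 0 < m →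
      |(m : ℝ) - α * v k| ≤ Real.log (v k) ^ U → P m := by
  classical
  -- `A` may be assumed positive
  have hA0 : A ≠ 0 := by
    rintro rfl
    simp only [pow_zero, div_one] at hA
    have := hA.tendsto_atTop_zero
    simp only [tendsto_const_nhds_iff] at this
    norm_num at this
  have hlv : Tendsto (fun k => Real.log (v k)) atTop atTop := by
    have h1 := hA.tendsto_atTop_zero
    have hpos : ∀ k, 0 < Real.log (v k) := fun k => Real.log_pos (by linarith [hv k])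
    rw [tendsto_atTop]
    intro R
    have h2 : ∀ᶠ k in atTop, 1 / Real.log (v k) ^ A < 1 / (max R 1) ^ A :=
      h1.eventually_lt_const (by positivity)
    filter_upwards [h2] with k hk
    have h3 : (max R 1) ^ A < Real.log (v k) ^ A :=
      lt_of_one_div_lt_one_div (pow_pos (hpos k) A) hk
    have h4 : max R 1 < Real.log (v k) := lt_of_pow_lt_pow_left₀ A (hpos k).le h3
    exact (le_max_left _ _).trans h4.le
  have hvt : Tendsto v atTop atTop := by
    refine tendsto_atTop_mono (fun k => ?_) hlv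
    exact (Real.log_le_sub_one_of_pos (by linarith [hv k])).trans (by linarith)
  -- the logarithm is small
  have hsmall : ∃ R : ℝ, 0 < R ∧ ∀ x : ℝ, 2 ≤ x → Real.log x ^ U ≤ R * x := by
    have h1 : (fun x : ℝ => Real.log x ^ U) =o[atTop] (id : ℝ → ℝ) := by
      exact Real.isLittleO_pow_log_id_atTop
    obtain ⟨x₀, hx₀⟩ := eventually_atTop.1 (h1.bound one_pos)
    refine ⟨1 + Real.log (max x₀ 2) ^ U, by
      have : 0 ≤ Real.log (max x₀ 2) := Real.log_nonneg (by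
        linarith [le_max_right x₀ 2])
      positivity, fun x hx => ?_⟩
    have hlx : 0 ≤ Real.log x := Real.log_nonneg (by linarith)
    have hR : 0 ≤ Real.log (max x₀ 2) := Real.log_nonneg (by linarith [le_max_right x₀ 2])
    rcases le_total x₀ x with h | h
    · have h2 := hx₀ x h
      simp only [id] at h2
      rw [Real.norm_of_nonneg (by positivity), Real.norm_of_nonneg (by linarith)] at h2
      have : 0 ≤ Real.log (max x₀ 2) ^ U * x := by positivity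
      linarith
    · have h2 : Real.log x ≤ Real.log (max x₀ 2) :=
        Real.log_le_log (by linarith) (h.trans (le_max_left _ _))
      have h3 := pow_le_pow_left₀ hlx h2 U
      have h4 : Real.log (max x₀ 2) ^ U ≤ Real.log (max x₀ 2) ^ U * x :=
        le_mul_of_one_le_right (by positivity) (by linarith)
      linarith
  obtain ⟨R, hR0, hR⟩ := hsmall
  obtain ⟨x₀, hx₀⟩ := rare_count hP (U + A)
  have key : ∀ T : ℕ, ∀ᵐ α : ℝ, 0 < α → α ≤ T → ∃ k₀ : ℕ, ∀ k : ℕ, k₀ ≤ k → ∀ m : ℕ, 0 < m →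
      |(m : ℝ) - α * v k| ≤ Real.log (v k) ^ U → P m := by
    intro T
    obtain ⟨M, hM⟩ : ∃ M : ℕ → ℝ, M = fun k => (T + 1 + R) * v k := ⟨_, rfl⟩
    have hMv : ∀ k, v k ≤ M k := by
      intro k
      rw [hM]
      have := hv k
      have hT0 : (0 : ℝ) ≤ T := Nat.cast_nonneg T
      simp only
      nlinarith
    obtain ⟨bad, hbad⟩ : ∃ bad : ℕ → Set ℝ, bad = fun k =>
      ⋃ m ∈ {m : ℕ | (m : ℝ) ≤ M k ∧ 0 < m ∧ ¬ P m},
        Set.Icc (((m : ℝ) - Real.log (v k) ^ U) / v k) (((m : ℝ) + Real.log (v k) ^ U) / v k) :=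
      ⟨_, rfl⟩
    obtain ⟨k₁, hk₁⟩ := eventually_atTop.1 (hvt.eventually_ge_atTop x₀)
    have hvol : ∀ k, k₁ ≤ k → volume (bad k) ≤
        ENNReal.ofReal (4 * (T + 1 + R) * (1 / Real.log (v k) ^ A)) := by
      intro k hk
      have hvk := hv k
      have hvk0 : 0 < v k := by linarith
      have hl : 0 < Real.log (v k) := Real.log_pos (by linarith)
      obtain ⟨hfin, hcard⟩ := hx₀ (M k) ((hk₁ k hk).trans (hMv k))
      have hb : bad k = ⋃ m ∈ hfin.toFinset,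
          Set.Icc (((m : ℝ) - Real.log (v k) ^ U) / v k)
            (((m : ℝ) + Real.log (v k) ^ U) / v k) := by
        rw [hbad]
        simp only [Set.Finite.mem_toFinset]
      rw [hb]
      refine (measure_biUnion_finset_le _ _).trans ?_
      have h1 : ∀ m : ℕ, volume (Set.Icc (((m : ℝ) - Real.log (v k) ^ U) / v k)
          (((m : ℝ) + Real.log (v k) ^ U) / v k)) =
          ENNReal.ofReal (2 * Real.log (v k) ^ U / v k) := by
        intro m
        rw [Real.volume_Icc]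
        congr 1
        ring
      simp only [h1]
      rw [sum_const, nsmul_eq_mul, ← ENNReal.ofReal_natCast, ← ENNReal.ofReal_mul (Nat.cast_nonneg _)]
      apply ENNReal.ofReal_le_ofReal
      have h2 : ((hfin.toFinset.card : ℕ) : ℝ) ≤ 2 * M k / Real.log (v k) ^ (U + A) := by
        rw [← Set.ncard_eq_toFinset_card _ hfin]
        refine hcard.trans ?_
        apply div_le_div_of_nonneg_left (by linarith [hMv k]) (by positivity)
        exact pow_le_pow_left₀ hl.le (Real.log_le_log hvk0 (hMv k)) _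
      calc ((hfin.toFinset.card : ℕ) : ℝ) * (2 * Real.log (v k) ^ U / v k) ≤
            2 * M k / Real.log (v k) ^ (U + A) * (2 * Real.log (v k) ^ U / v k) :=
            mul_le_mul_of_nonneg_right h2 (by positivity)
        _ = 4 * (T + 1 + R) * (1 / Real.log (v k) ^ A) := by
            rw [hM, pow_add]
            field_simp
            ring
    have hsum : ∑' n : ℕ, volume (bad (n + k₁)) ≠ ⊤ := by
      have hs : Summable (fun n : ℕ => 4 * (T + 1 + R) * (1 / Real.log (v (n + k₁)) ^ A)) :=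
        ((summable_nat_add_iff k₁).2 hA).mul_left _
      refine ne_top_of_le_ne_top ?_ (ENNReal.tsum_le_tsum fun n => hvol (n + k₁) (by omega))
      rw [← ENNReal.ofReal_tsum_of_nonneg (fun n => ?_) hs]
      · exact ENNReal.ofReal_ne_top
      · have : 0 < Real.log (v (n + k₁)) := Real.log_pos (by linarith [hv (n + k₁)])
        positivity
    filter_upwards [ae_eventually_notMem hsum] with α hα hα0 hαT
    obtain ⟨n₀, hn⟩ := eventually_atTop.1 hα
    refine ⟨n₀ + k₁, fun k hk m hm0 hm => ?_⟩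
    by_contra hcon
    have h4 := hn (k - k₁) (by omega)
    rw [show k - k₁ + k₁ = k by omega] at h4
    apply h4
    have hvk := hv k
    have hvk0 : 0 < v k := by linarith
    rw [hbad]
    simp only [Set.mem_iUnion, exists_prop]
    obtain ⟨e1, e2⟩ := abs_le.1 hm
    refine ⟨m, ⟨?_, hm0, hcon⟩, ?_⟩
    · rw [hM]
      have h5 := hR (v k) hvk
      have h6 : α * v k ≤ T * v k := mul_le_mul_of_nonneg_right hαT hvk0.le
      simp only
      nlinarith
    · rw [Set.mem_Icc, div_le_iff₀ hvk0, le_div_iff₀ hvk0]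
      constructor <;> linarith
  have hall := ae_all_iff.2 key
  filter_upwards [hall] with α hα hα0
  obtain ⟨T, hT⟩ := exists_nat_ge α
  exact hα T hα0 hT

end Pool.Agent.X286.Go
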