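import Mathlib
import Pool.Agent.Y885.WI4
import Pool.Agent.X286.Go.Real

/-!
# Goldbach pairs in windows for all even integers near the multiples of powers by a random number
-/

set_option autoImplicit false

namespace Pool.Agent.X286.Go

open MeasureTheory ProbabilityTheory Finset Filter Topology Pool.Agent.W93.PG

/-- the property follows from the count of Goldbach pairs in windows -/
def FromWin (P : ℕ → Prop) : Prop := ∃ (ε : ℝ) (A m₀ : ℕ), 0 < ε ∧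
  ∀ m : ℕ, m₀ ≤ m → 2 ∣ m → WinP ε A m → P m

theorem level_of {P : ℕ → Prop} (hP : FromWin P) {b B : ℕ} (D : ℕ) (hb : 2 ≤ b) (hB : 1 ≤ B)
    {η δ : ℝ} (hη : 0 < η) (hδ : 0 < δ) :
    Level b B D η δ fun _ m => 0 < m → Even m → P m.toNat := by
  obtain ⟨ε, A, m₀, hε, h⟩ := hP
  intro U
  obtain ⟨k₀, h1⟩ := Pool.Agent.Y885.rs_both b B D A U m₀ hb hB η δ ε hη hδ hε P h
  refine ⟨k₀, fun k hk J hJ s p hp hs c hc => ?_⟩
  refine le_trans (le_of_eq ?_) ((h1 k hk J hJ).1 s p hp hs c hc)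
  apply sum_congr rfl
  intro ω _
  congr 1
  rw [eq_iff_iff]
  push Not
  rfl

theorem rich_range (k : ℕ) : Pool.Agent.Y885.Rich (1 / 10) 0 k (range k) := by
  have hk0 : (0 : ℝ) ≤ k := Nat.cast_nonneg k
  refine ⟨fun j hj => mem_range.1 hj, fun m hm => ?_, fun m hm => ?_, ?_⟩
  · have h1 : (range k).filter (fun j => j < m) = range m := by
      ext j
      rw [mem_filter, mem_range, mem_range]
      omega
    rw [h1, card_range]
    have : (0 : ℝ) ≤ m := Nat.cast_nonneg m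
    push_cast
    linarith
  · have h1 : ((range k).filter (fun j => k - m ≤ j)).card = m := by
      have h2 : (range k).filter (fun j => k - m ≤ j) = Ico (k - m) k := by
        ext j
        rw [mem_filter, mem_range, mem_Ico]
        omega
      rw [h2, Nat.card_Ico]
      omega
    rw [h1]
    have : (0 : ℝ) ≤ m := Nat.cast_nonneg m
    push_cast
    linarith
  · rw [card_range]
    linarith

theorem rare_of {P : ℕ → Prop} (hP : FromWin P) : Rare fun m => Even m → P m := by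
  classical
  obtain ⟨ε, A, m₀, hε, h⟩ := hP
  intro U
  obtain ⟨k₀, h1⟩ := Pool.Agent.Y885.rs_both 2 1 0 A U m₀ le_rfl le_rfl (1 / 2) (1 / 10) ε
    (by norm_num) (by norm_num) hε P h
  refine ⟨k₀, fun k hk => ?_⟩
  have h2 := (h1 k hk (range k) (rich_range k)).2 (fun _ => range 2)
    (fun j _ => ⟨⟨0, by simp⟩, fun a ha => mem_range.1 ha⟩) (fun j _ => by rw [card_range])
  refine le_trans (le_of_eq ?_) (h2.trans (le_of_eq ?_))
  · rw [← Set.ncard_coe_finset]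
    congr 2
    ext m
    simp only [Set.mem_ofPred_eq, coe_filter, mem_range, Classical.not_imp]
    constructor
    · rintro ⟨h3, h4, h5⟩
      exact ⟨h3, fun j _ => Nat.mod_lt _ (by norm_num), h4, h5⟩
    · rintro ⟨h3, -, h4, h5⟩
      exact ⟨h3, h4, h5⟩
  · simp

/-- **Almost surely, for all the parameters.** -/
theorem reals_all {Q : ℕ → ℕ → ℕ → Prop} (hQ : ∀ n A, FromWin (Q n A)) {Ω : Type}
    [MeasurableSpace Ω] {μ : Measure Ω} [IsProbabilityMeasure μ] {b B D : ℕ} (hb : 2 ≤ b)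
    {η δ : ℝ} (hη : 0 < η) (hδ : 0 < δ) {J : Set ℕ} (hT : Thick δ D J) {X : ℕ → Ω → ℤ}
    (hX : ∀ j, Measurable (X j)) (hI : iIndepFun X μ) (hXB : ∀ j ω, |X j ω| ≤ B)
    (hJ : ∀ j ∈ J, ∀ x : ℤ, μ.real {ω | X j ω = x} ≤ 1 - η) :
    ∀ᵐ ω ∂μ, ∀ n A U : ℕ, ∃ k₀ : ℕ, ∀ k : ℕ, k₀ ≤ k → ∀ m : ℕ, 0 < m → Even m →
      |(m : ℝ) - num b (fun j => X j ω) * (b : ℝ) ^ k| ≤ (k : ℝ) ^ U → Q n A m := by
  rw [ae_all_iff]
  intro n
  rw [ae_all_iff]
  intro A
  rw [ae_all_iff]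
  intro U
  filter_upwards [reals (B := max B 2) hb (le_max_right _ _) hδ hT
    (level_of (hQ n A) D hb (by omega) hη (by linarith)) hX hI
    (fun j ω => (hXB j ω).trans (by exact_mod_cast le_max_left B 2)) hJ U] with ω hω
  obtain ⟨k₀, hk₀⟩ := hω
  refine ⟨k₀, fun k hk m hm0 hm2 hm => ?_⟩
  have h := hk₀ k hk (m : ℤ) (by exact_mod_cast hm) (by exact_mod_cast hm0)
    (by exact_mod_cast hm2)
  rwa [Int.toNat_natCast] at h

/-- **Almost everywhere, for all the parameters.** -/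
theorem lebesgue_all {Q : ℕ → ℕ → ℕ → Prop} (hQ : ∀ n A, FromWin (Q n A)) {v : ℕ → ℝ}
    (hv : ∀ k, 2 ≤ v k) {A₀ : ℕ} (hA : Summable fun k : ℕ => 1 / Real.log (v k) ^ A₀) :
    ∀ᵐ α : ℝ, 0 < α → ∀ n A U : ℕ, ∃ k₀ : ℕ, ∀ k : ℕ, k₀ ≤ k → ∀ m : ℕ, 0 < m → Even m →
      |(m : ℝ) - α * v k| ≤ Real.log (v k) ^ U → Q n A m := by
  have h : ∀ᵐ α : ℝ, ∀ n A U : ℕ, 0 < α → ∃ k₀ : ℕ, ∀ k : ℕ, k₀ ≤ k → ∀ m : ℕ, 0 < m →
      Even m → |(m : ℝ) - α * v k| ≤ Real.log (v k) ^ U → Q n A m := by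
    rw [ae_all_iff]
    intro n
    rw [ae_all_iff]
    intro A
    rw [ae_all_iff]
    intro U
    filter_upwards [lebesgue (rare_of (hQ n A)) hv hA U] with α hα h0
    obtain ⟨k₀, hk₀⟩ := hα h0
    exact ⟨k₀, fun k hk m hm0 hm2 hm => hk₀ k hk m hm0 hm hm2⟩
  filter_upwards [h] with α hα h0 n A U
  exact hα n A U h0

end Pool.Agent.X286.Go
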